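import Mathlib

/-!
# Bohr sets with few frequencies inside a Bohr set with many frequencies

Basic facts: the norm `nn y = ‖y / N‖`, cells, the number of frequencies that are small on a Bohr set.
-/

set_option autoImplicit false

namespace Pool.Agent.V8H16.BL

open Finset

/-- `‖y / N‖`, the distance of `y / N` to the nearest integer -/
noncomputable def nn {N : ℕ} (y : ZMod N) : ℝ :=
  |((y.val : ℝ) / (N : ℝ)) - ((round ((y.val : ℝ) / (N : ℝ)) : ℤ) : ℝ)|

theorem nn_eq {N : ℕ} [NeZero N] (y : ZMod N) : nn y = ‖ZMod.toAddCircle y‖ := by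
  rw [ZMod.toAddCircle_apply, UnitAddCircle.norm_eq]
  rfl

theorem nn_add {N : ℕ} [NeZero N] (x y : ZMod N) : nn (x + y) ≤ nn x + nn y := by
  rw [nn_eq, nn_eq, nn_eq, map_add]
  exact norm_add_le _ _

theorem nn_zero {N : ℕ} [NeZero N] : nn (0 : ZMod N) = 0 := by
  rw [nn_eq, map_zero, norm_zero]

theorem nn_nonneg {N : ℕ} (x : ZMod N) : 0 ≤ nn x := abs_nonneg _

theorem nn_le_half {N : ℕ} (x : ZMod N) : nn x ≤ 1 / 2 := abs_sub_round _

theorem nn_neg {N : ℕ} [NeZero N] (x : ZMod N) : nn (-x) = nn x := by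
  rw [nn_eq, nn_eq, map_neg, norm_neg]

theorem nn_sum {N : ℕ} [NeZero N] {ι : Type*} (s : Finset ι) (g : ι → ZMod N) :
    nn (∑ i ∈ s, g i) ≤ ∑ i ∈ s, nn (g i) := by
  classical
  induction s using Finset.induction_on with
  | empty => simp [nn_zero]
  | insert a s ha ih =>
    rw [Finset.sum_insert ha, Finset.sum_insert ha]
    exact (nn_add _ _).trans (by linarith)

/-- the norm is at most the distance of the representatives -/
theorem nn_sub_le {N : ℕ} [NeZero N] (x y : ZMod N) :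
    nn (x - y) ≤ |(x.val : ℝ) / N - (y.val : ℝ) / N| := by
  rw [nn_eq, map_sub, ZMod.toAddCircle_apply, ZMod.toAddCircle_apply]
  have : ((((x.val : ℝ) / N : ℝ) : UnitAddCircle) - (((y.val : ℝ) / N : ℝ) : UnitAddCircle)) =
      (((x.val : ℝ) / N - (y.val : ℝ) / N : ℝ) : UnitAddCircle) := by
    rw [AddCircle.coe_sub]
  rw [this, UnitAddCircle.norm_eq]
  have h := round_le ((x.val : ℝ) / N - (y.val : ℝ) / N) 0
  simpa using h

/-- If `‖y‖ < 1/3` and `‖2 y‖ < 1/3` then `‖y‖ < 1/6`. -/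
theorem nn_half {N : ℕ} [NeZero N] (y : ZMod N) (h1 : nn y < 1 / 3) (h2 : nn (y + y) < 1 / 3) :
    nn y < 1 / 6 := by
  obtain ⟨t, ht⟩ : ∃ t : ℝ, t = (y.val : ℝ) / N := ⟨_, rfl⟩
  have e1 : nn y = |t - round t| := by unfold nn; rw [ht]
  have e2 : nn (y + y) = |(t + t) - round (t + t)| := by
    rw [nn_eq, map_add, ZMod.toAddCircle_apply, ← ht, ← AddCircle.coe_add, UnitAddCircle.norm_eq]
  rw [e1] at h1 ⊢
  rw [e2] at h2
  obtain ⟨z, hz⟩ : ∃ z : ℤ, z = round (t + t) - 2 * round t := ⟨_, rfl⟩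
  obtain ⟨r, hr⟩ : ∃ r : ℝ, r = t - round t := ⟨_, rfl⟩
  rw [← hr] at h1 ⊢
  have e3 : (t + t) - round (t + t) = 2 * r - z := by
    rw [hz, hr]
    push_cast
    ring
  rw [e3] at h2
  rw [abs_lt] at h1 h2 ⊢
  have hz1 : (z : ℝ) < 1 := by linarith [h1.1, h1.2, h2.1, h2.2]
  have hz2 : (-1 : ℝ) < z := by linarith [h1.1, h1.2, h2.1, h2.2]
  have hz0 : z = 0 := by
    have a1 : z < 1 := by exact_mod_cast hz1
    have a2 : -1 < z := by exact_mod_cast hz2
    omega
  rw [hz0] at h2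
  push_cast at h2
  constructor <;> linarith [h2.1, h2.2]

/-- the real part of the character -/
theorem re_char {N : ℕ} [NeZero N] (y : ZMod N) :
    (ZMod.stdAddChar y : ℂ).re = Real.cos (2 * Real.pi * ((y.val : ℝ) / N)) := by
  rw [ZMod.stdAddChar_apply, ZMod.toCircle_apply]
  have : (2 * Real.pi * Complex.I * (y.val : ℂ) / (N : ℂ)) =
      ((2 * Real.pi * ((y.val : ℝ) / N) : ℝ) : ℂ) * Complex.I := by
    push_cast
    ring
  rw [this, Complex.exp_ofReal_mul_I_re]

theorem re_char_ge {N : ℕ} [NeZero N] (y : ZMod N) (h : nn y < 1 / 6) :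
    1 / 2 ≤ (ZMod.stdAddChar y : ℂ).re := by
  rw [re_char]
  obtain ⟨t, ht⟩ : ∃ t : ℝ, t = (y.val : ℝ) / N := ⟨_, rfl⟩
  have e1 : nn y = |t - round t| := by unfold nn; rw [ht]
  rw [e1] at h
  rw [← ht]
  have e2 : Real.cos (2 * Real.pi * t) = Real.cos (2 * Real.pi * |t - round t|) := by
    have e3 : 2 * Real.pi * |t - round t| = |2 * Real.pi * (t - round t)| := by
      rw [abs_mul, abs_of_pos (by positivity : (0 : ℝ) < 2 * Real.pi)]
    rw [e3, Real.cos_abs]
    have e4 : 2 * Real.pi * (t - round t) = 2 * Real.pi * t - (round t : ℤ) * (2 * Real.pi) := by ring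
    rw [e4, Real.cos_sub_int_mul_two_pi]
  rw [e2, ← Real.cos_pi_div_three]
  have hp := Real.pi_pos
  apply Real.cos_le_cos_of_nonneg_of_le_pi
  · positivity
  · linarith
  · nlinarith [abs_nonneg (t - round t)]

/-- **Cells**: for all `q ≥ 1` and all frequencies `f₁, …, f_m` there is a set `A` of density at least `q ^ (-m)` with
`‖f_j (x - y)‖ < 1/q` for all `x, y` in `A`. -/
theorem cell {N : ℕ} [NeZero N] (q : ℕ) (hq : 0 < q) {m : ℕ} (f : Fin m → ZMod N) :
    ∃ A : Finset (ZMod N), N ≤ q ^ m * A.card ∧ ∀ x ∈ A, ∀ y ∈ A, ∀ j, nn (f j * (x - y)) < 1 / (q : ℝ) := by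
  classical
  have hN : (0 : ℝ) < N := by exact_mod_cast NeZero.pos N
  have hN' : 0 < N := NeZero.pos N
  have hq' : (0 : ℝ) < q := by exact_mod_cast hq
  have : Nonempty (Fin m → Fin q) := ⟨fun _ => ⟨0, hq⟩⟩
  let g : ZMod N → (Fin m → Fin q) := fun x j => ⟨(f j * x).val * q / N, by
    rw [Nat.div_lt_iff_lt_mul hN', mul_comm]
    exact Nat.mul_lt_mul_of_pos_left (ZMod.val_lt _) hq⟩
  by_contra hcon
  push Not at hcon
  have hlt : ∀ s : Fin m → Fin q, q ^ m * (univ.filter fun x => g x = s).card < N := by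
    intro s
    by_contra hs
    obtain ⟨x, hx, y, hy, j, hj⟩ := hcon (univ.filter fun x => g x = s) (by omega)
    rw [mem_filter] at hx hy
    apply absurd hj
    rw [not_le]
    have h1 : (f j * x).val * q / N = (f j * y).val * q / N := by
      have h2 : g x j = g y j := by rw [hx.2, hy.2]
      exact congrArg Fin.val h2
    rw [mul_sub]
    refine lt_of_le_of_lt (nn_sub_le _ _) ?_
    obtain ⟨a, ha⟩ : ∃ a, a = (f j * x).val * q := ⟨_, rfl⟩
    obtain ⟨b, hb⟩ : ∃ b, b = (f j * y).val * q := ⟨_, rfl⟩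
    rw [← ha, ← hb] at h1
    have ha1 := Nat.div_add_mod a N
    have hb1 := Nat.div_add_mod b N
    have ha2 := Nat.mod_lt a hN'
    have hb2 := Nat.mod_lt b hN'
    have ha3 : (a : ℝ) = N * (a / N : ℕ) + (a % N : ℕ) := by exact_mod_cast ha1.symm
    have hb3 : (b : ℝ) = N * (b / N : ℕ) + (b % N : ℕ) := by exact_mod_cast hb1.symm
    have ha4 : ((a % N : ℕ) : ℝ) < N := by exact_mod_cast ha2
    have hb4 : ((b % N : ℕ) : ℝ) < N := by exact_mod_cast hb2
    have ha5 : (0 : ℝ) ≤ ((a % N : ℕ) : ℝ) := Nat.cast_nonneg _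
    have hb5 : (0 : ℝ) ≤ ((b % N : ℕ) : ℝ) := Nat.cast_nonneg _
    have hab : |(a : ℝ) - b| < N := by
      rw [ha3, hb3, h1, abs_lt]
      constructor <;> linarith
    have e1 : ((f j * x).val : ℝ) / N - ((f j * y).val : ℝ) / N = ((a : ℝ) - b) / (N * q) := by
      rw [ha, hb]
      push_cast
      field_simp
    rw [e1, abs_div, abs_of_pos (by positivity : (0 : ℝ) < N * q), div_lt_div_iff₀ (by positivity) hq']
    nlinarith
  have hsum : ∑ s : Fin m → Fin q, (univ.filter fun x => g x = s).card = N := by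
    have h1 := Finset.card_eq_sum_card_fiberwise (s := (univ : Finset (ZMod N)))
      (t := (univ : Finset (Fin m → Fin q))) (f := g) (fun x _ => Finset.mem_coe.2 (mem_univ _))
    rw [Finset.card_univ, ZMod.card] at h1
    exact h1.symm
  have h3 : ∑ s : Fin m → Fin q, (q ^ m * (univ.filter fun x => g x = s).card) < ∑ s : Fin m → Fin q, N :=
    Finset.sum_lt_sum_of_nonempty univ_nonempty fun s _ => hlt s
  rw [← Finset.mul_sum, hsum, Finset.sum_const, Finset.card_univ, Fintype.card_fun, Fintype.card_fin,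
    Fintype.card_fin, smul_eq_mul] at h3
  exact lt_irrefl _ h3

/-- the number of points of a Bohr set -/
theorem bohr_card {N : ℕ} [NeZero N] (q : ℕ) (hq : 0 < q) {m : ℕ} (f : Fin m → ZMod N) :
    ∃ B : Finset (ZMod N), N ≤ q ^ m * B.card ∧ ∀ x ∈ B, ∀ j, nn (f j * x) < 1 / (q : ℝ) := by
  classical
  obtain ⟨A, h1, h2⟩ := cell q hq f
  have hA : A.Nonempty := by
    rw [Finset.nonempty_iff_ne_empty]
    intro h
    rw [h] at h1
    have := NeZero.pos N
    simp at h1
    omega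
  obtain ⟨x₀, hx₀⟩ := hA
  refine ⟨A.image fun x => x - x₀, ?_, ?_⟩
  · rw [Finset.card_image_of_injective _ (sub_left_injective)]
    exact h1
  · intro x hx j
    rw [mem_image] at hx
    obtain ⟨y, hy, rfl⟩ := hx
    exact h2 y hy x₀ hx₀ j

/-- **Parseval**: few characters have a large sum over a set. -/
theorem large_spectrum {N : ℕ} [NeZero N] (B G : Finset (ZMod N))
    (h : ∀ γ ∈ G, ∀ x ∈ B, nn (γ * x) < 1 / 6) : G.card * B.card ≤ 4 * N := by
  classical
  rcases Finset.eq_empty_or_nonempty B with hB | hB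
  · rw [hB]
    simp
  have hBc : (0 : ℝ) < B.card := by exact_mod_cast hB.card_pos
  let S : ZMod N → ℂ := fun γ => ∑ x ∈ B, (ZMod.stdAddChar (γ * x) : ℂ)
  have hS : ∀ γ ∈ G, ((B.card : ℝ) / 2) ^ 2 ≤ Complex.normSq (S γ) := by
    intro γ hγ
    have h1 : (B.card : ℝ) / 2 ≤ (S γ).re := by
      rw [Complex.re_sum]
      calc (B.card : ℝ) / 2 = ∑ x ∈ B, (1 / 2 : ℝ) := by rw [Finset.sum_const, nsmul_eq_mul]; ring
        _ ≤ _ := Finset.sum_le_sum fun x hx => re_char_ge _ (h γ hγ x hx)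
    rw [Complex.normSq_apply]
    have h2 : ((B.card : ℝ) / 2) ^ 2 ≤ (S γ).re * (S γ).re := by
      rw [sq]
      exact mul_self_le_mul_self (by positivity) h1
    nlinarith [mul_self_nonneg (S γ).im]
  have hP : ∑ γ : ZMod N, Complex.normSq (S γ) = N * B.card := by
    have h1 : ((∑ γ : ZMod N, Complex.normSq (S γ) : ℝ) : ℂ) = ((N * B.card : ℝ) : ℂ) := by
      push_cast
      have h2 : ∀ γ : ZMod N, ((Complex.normSq (S γ) : ℝ) : ℂ) =
          ∑ x ∈ B, ∑ y ∈ B, (ZMod.stdAddChar (γ * (x - y)) : ℂ) := by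
        intro γ
        rw [← Complex.mul_conj, map_sum, Finset.sum_mul_sum]
        refine Finset.sum_congr rfl fun x _ => Finset.sum_congr rfl fun y _ => ?_
        rw [mul_sub, sub_eq_add_neg, AddChar.map_add_eq_mul, AddChar.map_neg_eq_conj]
      simp_rw [h2]
      rw [Finset.sum_comm]
      have h3 : ∀ x ∈ B, ∑ γ : ZMod N, ∑ y ∈ B, (ZMod.stdAddChar (γ * (x - y)) : ℂ) = N := by
        intro x hx
        rw [Finset.sum_comm]
        have h4 : ∀ y ∈ B, ∑ γ : ZMod N, (ZMod.stdAddChar (γ * (x - y)) : ℂ) = if y = x then (N : ℂ) else 0 := by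
          intro y _
          rw [AddChar.sum_mulShift _ (ZMod.isPrimitive_stdAddChar N), ZMod.card]
          simp only [sub_eq_zero]
          by_cases hxy : x = y
          · rw [if_pos hxy, if_pos hxy.symm]
          · rw [if_neg hxy, if_neg (fun h => hxy h.symm)]
            simp
        rw [Finset.sum_congr rfl h4, Finset.sum_ite_eq' B x, if_pos hx]
      rw [Finset.sum_congr rfl h3, Finset.sum_const, nsmul_eq_mul]
      ring
    exact_mod_cast h1
  have h5 : (G.card : ℝ) * ((B.card : ℝ) / 2) ^ 2 ≤ N * B.card := by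
    rw [← hP]
    calc (G.card : ℝ) * ((B.card : ℝ) / 2) ^ 2 = ∑ γ ∈ G, ((B.card : ℝ) / 2) ^ 2 := by
          rw [Finset.sum_const, nsmul_eq_mul]
      _ ≤ ∑ γ ∈ G, Complex.normSq (S γ) := Finset.sum_le_sum hS
      _ ≤ _ := Finset.sum_le_univ_sum_of_nonneg fun γ => Complex.normSq_nonneg _
  have h6 : (G.card : ℝ) * B.card ≤ 4 * N := by
    have h7 : (G.card : ℝ) * B.card * B.card ≤ 4 * N * B.card := by nlinarith
    exact le_of_mul_le_mul_right h7 hBc
  exact_mod_cast h6

/-- The number of `γ` with `‖γ x‖ < 1/3` on the Bohr set of `f` of radius `1/q`. -/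
theorem few {N : ℕ} [NeZero N] (q : ℕ) (hq : 0 < q) {m : ℕ} (f : Fin m → ZMod N) (G : Finset (ZMod N))
    (h : ∀ γ ∈ G, ∀ x : ZMod N, (∀ j, nn (f j * x) ≤ 1 / (q : ℝ)) → nn (γ * x) < 1 / 3) :
    G.card ≤ 4 * (2 * q) ^ m := by
  have hq' : (0 : ℝ) < q := by exact_mod_cast hq
  obtain ⟨B, h1, h2⟩ := bohr_card (2 * q) (by omega) f
  have h3 : ∀ γ ∈ G, ∀ x ∈ B, nn (γ * x) < 1 / 6 := by
    intro γ hγ x hx
    apply nn_half
    · refine h γ hγ x fun j => (h2 x hx j).le.trans ?_
      apply one_div_le_one_div_of_le hq'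
      push_cast
      linarith
    · rw [← mul_add]
      refine h γ hγ _ fun j => ?_
      rw [mul_add]
      refine (nn_add _ _).trans ?_
      have := h2 x hx j
      have e : (1 : ℝ) / ((2 * q : ℕ) : ℝ) + 1 / ((2 * q : ℕ) : ℝ) = 1 / q := by
        push_cast
        field_simp
        norm_num
      linarith
  have h4 := large_spectrum B G h3
  by_contra hcon
  push Not at hcon
  have hN := NeZero.pos N
  have h5 : 4 * N < 4 * N := by
    calc 4 * N ≤ 4 * ((2 * q) ^ m * B.card) := by omega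
      _ = (4 * (2 * q) ^ m) * B.card := by ring
      _ < G.card * B.card := by
        apply Nat.mul_lt_mul_of_pos_right hcon
        by_contra hB
        have : B.card = 0 := by omega
        rw [this] at h1
        simp at h1
        omega
      _ ≤ 4 * N := h4
  exact lt_irrefl _ h5

end Pool.Agent.V8H16.BL
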