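import Pool.Agent.V8H16.BL.Main

/-!
# The trade-off for sets of a given density, and its consequence for large `N`
-/

set_option autoImplicit false

namespace Pool.Agent.V8H16.BL

open Finset

/-- `x` is a difference of two sums of `k` elements of `A` -/
def InK {N : ℕ} (k : ℕ) (A : Finset (ZMod N)) (x : ZMod N) : Prop :=
  ∃ a b : Fin k → ZMod N, (∀ i, a i ∈ A) ∧ (∀ i, b i ∈ A) ∧ x = ∑ i, a i - ∑ i, b i

/-- the trade-off for sets with `⌈α N⌉` elements -/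
theorem tradeoff (N k d : ℕ) (α : ℝ) (hN : 8 ≤ N) (hk : 1 ≤ k) (hα : 0 < α) (hαd : α * (3 * k) ^ d ≤ 1) :
    ∃ A : Finset (ZMod N), A.card = ⌈α * N⌉₊ ∧
      ∀ (Γ : Finset (ZMod N)) (ε : ℝ), 0 < ε → ε ≤ 1 → Γ.card < d →
        (∀ x : ZMod N, (∀ γ ∈ Γ, nn (γ * x) ≤ ε) → InK k A x) →
        (N : ℝ) ^ (d - Γ.card) < (32 / ε) ^ (Γ.card * d) := by
  classical
  have : NeZero N := ⟨by omega⟩
  obtain ⟨A, hA1, hA2⟩ := main (N := N) hN k d hk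
  have hk' : (0 : ℝ) < k := by exact_mod_cast hk
  have hle : ⌈α * N⌉₊ ≤ A.card := by
    apply Nat.ceil_le.2
    have h1 : (N : ℝ) ≤ (3 * k) ^ d * A.card := by exact_mod_cast hA1
    calc α * N ≤ α * ((3 * k) ^ d * A.card) := mul_le_mul_of_nonneg_left h1 hα.le
      _ = (α * (3 * k) ^ d) * A.card := by ring
      _ ≤ 1 * A.card := mul_le_mul_of_nonneg_right hαd (Nat.cast_nonneg _)
      _ = A.card := one_mul _
  obtain ⟨A', hA', hcard⟩ := Finset.exists_subset_card_eq hle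
  refine ⟨A', hcard, fun Γ ε hε hε1 hΓ hsub => hA2 Γ ε hε hε1 hΓ fun x hx => ?_⟩
  obtain ⟨a, b, ha, hb, hab⟩ := hsub x hx
  exact ⟨a, b, fun i => hA' (ha i), fun i => hA' (hb i), hab⟩

/-- **every radius**: for large `N` every Bohr set of radius at least `ε` in `kA - kA` has at least
`⌊log (1/α) / log (3k)⌋` frequencies. -/
theorem every (k : ℕ) (α ε : ℝ) (hk : 1 ≤ k) (hα : 0 < α) (hα' : α ≤ 1 / 2) (hε : 0 < ε) :
    ∃ N₀ : ℕ, ∀ N : ℕ, N₀ ≤ N → ∃ A : Finset (ZMod N), A.card = ⌈α * N⌉₊ ∧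
      ∀ (Γ : Finset (ZMod N)) (ρ : ℝ), ε ≤ ρ → (∀ x : ZMod N, (∀ γ ∈ Γ, nn (γ * x) ≤ ρ) → InK k A x) →
        ⌊Real.log (1 / α) / Real.log (3 * k)⌋₊ ≤ Γ.card := by
  obtain ⟨d, hd⟩ : ∃ d : ℕ, d = ⌊Real.log (1 / α) / Real.log (3 * k)⌋₊ := ⟨_, rfl⟩
  obtain ⟨δ, hδ⟩ : ∃ δ : ℝ, δ = min ε 1 := ⟨_, rfl⟩
  have hδ0 : 0 < δ := by rw [hδ]; exact lt_min hε one_pos
  have hδ1 : δ ≤ 1 := by rw [hδ]; exact min_le_right _ _
  have hδε : δ ≤ ε := by rw [hδ]; exact min_le_left _ _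
  have hk' : (1 : ℝ) ≤ k := by exact_mod_cast hk
  have hl0 : 0 < Real.log (3 * k) := Real.log_pos (by linarith)
  have hdα : α * (3 * k) ^ d ≤ 1 := by
    have h1 : (d : ℝ) ≤ Real.log (1 / α) / Real.log (3 * k) := by
      rw [hd]
      apply Nat.floor_le
      apply div_nonneg _ hl0.le
      apply Real.log_nonneg
      rw [le_div_iff₀ hα]
      linarith
    rw [le_div_iff₀ hl0] at h1
    have h2 : Real.log ((3 * k : ℝ) ^ d) ≤ Real.log (1 / α) := by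
      rw [Real.log_pow]
      exact h1
    have h3 : (3 * k : ℝ) ^ d ≤ 1 / α := by
      rwa [Real.log_le_log_iff (by positivity) (by positivity)] at h2
    rw [le_div_iff₀ hα] at h3
    linarith
  refine ⟨max 8 ⌈(32 / δ) ^ (d * d)⌉₊, fun N hN => ?_⟩
  have hN8 : 8 ≤ N := le_trans (le_max_left _ _) hN
  have hN2 : (32 / δ) ^ (d * d) ≤ N := by
    have h1 : ⌈(32 / δ) ^ (d * d)⌉₊ ≤ N := le_trans (le_max_right _ _) hN
    exact (Nat.le_ceil _).trans (by exact_mod_cast h1)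
  obtain ⟨A, hA1, hA2⟩ := tradeoff N k d α hN8 hk hα hdα
  refine ⟨A, hA1, fun Γ ρ hρ hsub => ?_⟩
  rw [← hd]
  by_contra hcon
  push Not at hcon
  have h1 := hA2 Γ δ hδ0 hδ1 hcon fun x hx => hsub x fun g hg => (hx g hg).trans (hδε.trans hρ)
  have hN1 : (1 : ℝ) ≤ N := by exact_mod_cast (by omega : 1 ≤ N)
  have h32 : (1 : ℝ) ≤ 32 / δ := by
    rw [le_div_iff₀ hδ0]
    linarith
  have h2 : (N : ℝ) ≤ (N : ℝ) ^ (d - Γ.card) := by
    calc (N : ℝ) = (N : ℝ) ^ 1 := (pow_one _).symm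
      _ ≤ _ := pow_le_pow_right₀ hN1 (by omega)
  have h3 : (32 / δ) ^ (Γ.card * d) ≤ (32 / δ) ^ (d * d) :=
    pow_le_pow_right₀ h32 (Nat.mul_le_mul_right _ hcon.le)
  linarith

end Pool.Agent.V8H16.BL
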