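import Pool.Agent.V8H16.BL.Basic

/-!
# Frequencies whose Bohr set contains no large Bohr set with fewer frequencies
-/

set_option autoImplicit false

namespace Pool.Agent.V8H16.BL

open Finset

theorem bad_card {N : ℕ} [NeZero N] {d m Q : ℕ} (hQ : 0 < Q) (h : (8 * (2 * Q) ^ m) ^ d * N ^ m ≤ N ^ d) :
    ∃ S : Finset (Fin d → ZMod N), S.card * 2 ^ d ≤ N ^ d ∧ ∀ γ : Fin d → ZMod N, γ ∉ S →
      ∀ f : Fin m → ZMod N, ∃ i, ∃ x : ZMod N, (∀ j, nn (f j * x) ≤ 1 / (Q : ℝ)) ∧ 1 / 3 ≤ nn (γ i * x) := by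
  classical
  let G : (Fin m → ZMod N) → Finset (ZMod N) := fun f =>
    univ.filter fun γ => ∀ x : ZMod N, (∀ j, nn (f j * x) ≤ 1 / (Q : ℝ)) → nn (γ * x) < 1 / 3
  have hG : ∀ f, (G f).card ≤ 4 * (2 * Q) ^ m := by
    intro f
    apply few Q hQ f
    intro γ hγ
    exact (mem_filter.1 hγ).2
  refine ⟨univ.biUnion fun f => Fintype.piFinset fun _ => G f, ?_, ?_⟩
  · have h1 : (univ.biUnion fun f : Fin m → ZMod N => Fintype.piFinset fun _ : Fin d => G f).card ≤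
        N ^ m * (4 * (2 * Q) ^ m) ^ d := by
      refine Finset.card_biUnion_le.trans ?_
      calc ∑ f : Fin m → ZMod N, (Fintype.piFinset fun _ : Fin d => G f).card ≤
          ∑ f : Fin m → ZMod N, (4 * (2 * Q) ^ m) ^ d := by
            refine Finset.sum_le_sum fun f _ => ?_
            rw [Fintype.card_piFinset, Finset.prod_const, Finset.card_univ, Fintype.card_fin]
            exact Nat.pow_le_pow_left (hG f) d
        _ = _ := by
            rw [Finset.sum_const, Finset.card_univ, Fintype.card_fun, Fintype.card_fin, ZMod.card, smul_eq_mul]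
    calc _ ≤ N ^ m * (4 * (2 * Q) ^ m) ^ d * 2 ^ d := Nat.mul_le_mul_right _ h1
      _ = (8 * (2 * Q) ^ m) ^ d * N ^ m := by
        rw [mul_assoc, ← mul_pow, mul_comm (N ^ m)]
        congr 2
        ring
      _ ≤ N ^ d := h
  · intro γ hγ f
    by_contra hcon
    push Not at hcon
    apply hγ
    rw [mem_biUnion]
    refine ⟨f, mem_univ _, ?_⟩
    rw [Fintype.mem_piFinset]
    intro i
    rw [mem_filter]
    exact ⟨mem_univ _, fun x hx => hcon i x hx⟩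

theorem bad_all {N : ℕ} [NeZero N] (hN : 8 ≤ N) {d m : ℕ} (hm : m < d) :
    ∃ S : Finset (Fin d → ZMod N), S.card * 2 ^ d ≤ N ^ d ∧ ∀ γ : Fin d → ZMod N, γ ∉ S →
      ∀ q : ℕ, 0 < q → (16 * q) ^ (m * d) ≤ N ^ (d - m) →
      ∀ f : Fin m → ZMod N, ∃ i, ∃ x : ZMod N, (∀ j, nn (f j * x) ≤ 1 / (q : ℝ)) ∧ 1 / 3 ≤ nn (γ i * x) := by
  classical
  rcases Nat.eq_zero_or_pos m with hm0 | hm0
  · subst hm0
    obtain ⟨S, h1, h2⟩ := bad_card (N := N) (d := d) (m := 0) (Q := 1) one_pos (by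
      simp only [pow_zero, mul_one]
      exact Nat.pow_le_pow_left hN d)
    refine ⟨S, h1, fun γ hγ q _ _ f => ?_⟩
    obtain ⟨i, x, _, h4⟩ := h2 γ hγ f
    exact ⟨i, x, fun j => j.elim0, h4⟩
  · by_cases hex : ∃ q : ℕ, 0 < q ∧ (16 * q) ^ (m * d) ≤ N ^ (d - m)
    · obtain ⟨q₀, hq₀, hq₀'⟩ := hex
      have hbd : ∀ q : ℕ, (16 * q) ^ (m * d) ≤ N ^ (d - m) → q ≤ N ^ (d - m) := by
        intro q hq
        refine le_trans ?_ hq
        calc q ≤ 16 * q := by omega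
          _ = (16 * q) ^ 1 := (pow_one _).symm
          _ ≤ (16 * q) ^ (m * d) := by
            rcases Nat.eq_zero_or_pos q with h | h
            · subst h
              simp
            · exact Nat.pow_le_pow_right (by omega) (Nat.mul_pos hm0 (by omega))
      obtain ⟨Q, hQdef⟩ : ∃ Q : ℕ, Q = Nat.findGreatest (fun q => (16 * q) ^ (m * d) ≤ N ^ (d - m)) (N ^ (d - m)) :=
        ⟨_, rfl⟩
      have hQ1 : (16 * Q) ^ (m * d) ≤ N ^ (d - m) := by
        rw [hQdef]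
        exact Nat.findGreatest_spec (P := fun q => (16 * q) ^ (m * d) ≤ N ^ (d - m)) (hbd q₀ hq₀') hq₀'
      have hQ2 : ∀ q : ℕ, (16 * q) ^ (m * d) ≤ N ^ (d - m) → q ≤ Q := by
        intro q hq
        rw [hQdef]
        exact Nat.le_findGreatest (hbd q hq) hq
      have hQ0 : 0 < Q := lt_of_lt_of_le hq₀ (hQ2 q₀ hq₀')
      obtain ⟨S, h1, h2⟩ := bad_card (N := N) (d := d) (m := m) (Q := Q) hQ0 (by
        calc (8 * (2 * Q) ^ m) ^ d * N ^ m ≤ ((16 * Q) ^ m) ^ d * N ^ m := by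
              apply Nat.mul_le_mul_right
              apply Nat.pow_le_pow_left
              have e : (16 * Q) ^ m = 8 ^ m * (2 * Q) ^ m := by rw [← mul_pow]; congr 1; ring
              rw [e]
              apply Nat.mul_le_mul_right
              calc 8 = 8 ^ 1 := rfl
                _ ≤ 8 ^ m := Nat.pow_le_pow_right (by norm_num) hm0
          _ = (16 * Q) ^ (m * d) * N ^ m := by rw [pow_mul]
          _ ≤ N ^ (d - m) * N ^ m := Nat.mul_le_mul_right _ hQ1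
          _ = N ^ d := by rw [← pow_add, Nat.sub_add_cancel hm.le])
      refine ⟨S, h1, fun γ hγ q hq hq' f => ?_⟩
      obtain ⟨i, x, h3, h4⟩ := h2 γ hγ f
      refine ⟨i, x, fun j => (h3 j).trans ?_, h4⟩
      apply one_div_le_one_div_of_le (by exact_mod_cast hq)
      exact_mod_cast hQ2 q hq'
    · refine ⟨∅, by simp, fun γ _ q hq hq' => absurd ⟨q, hq, hq'⟩ hex⟩

/-- **Good frequencies**: there are `γ₁, …, γ_d` such that `{x : ‖γ_i x‖ < 1/3 for all i}` contains no Bohr set with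
`m < d` frequencies and radius `1/q`, if `(16 q) ^ (m d) ≤ N ^ (d - m)`. -/
theorem good {N : ℕ} [NeZero N] (hN : 8 ≤ N) (d : ℕ) :
    ∃ γ : Fin d → ZMod N, ∀ m : ℕ, m < d → ∀ q : ℕ, 0 < q → (16 * q) ^ (m * d) ≤ N ^ (d - m) →
      ∀ f : Fin m → ZMod N, ∃ i, ∃ x : ZMod N, (∀ j, nn (f j * x) ≤ 1 / (q : ℝ)) ∧ 1 / 3 ≤ nn (γ i * x) := by
  classical
  have hS := fun m : Fin d => bad_all (N := N) hN (d := d) m.2
  choose S h1 h2 using hS
  have hcard : (univ.biUnion S).card < N ^ d := by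
    have h3 : (univ.biUnion S).card * 2 ^ d ≤ d * N ^ d := by
      calc _ ≤ (∑ m : Fin d, (S m).card) * 2 ^ d := Nat.mul_le_mul_right _ Finset.card_biUnion_le
        _ = ∑ m : Fin d, ((S m).card * 2 ^ d) := by rw [Finset.sum_mul]
        _ ≤ ∑ m : Fin d, N ^ d := Finset.sum_le_sum fun m _ => h1 m
        _ = _ := by rw [Finset.sum_const, Finset.card_univ, Fintype.card_fin, smul_eq_mul]
    have h4 : d < 2 ^ d := Nat.lt_two_pow_self
    have h5 : 0 < N ^ d := Nat.pow_pos (by omega)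
    by_contra h6
    push Not at h6
    have h7 : N ^ d * 2 ^ d ≤ d * N ^ d := (Nat.mul_le_mul_right _ h6).trans h3
    nlinarith
  have hex : ∃ γ : Fin d → ZMod N, γ ∉ univ.biUnion S := by
    by_contra hcon
    push Not at hcon
    have h3 : univ.biUnion S = univ := Finset.eq_univ_iff_forall.2 hcon
    rw [h3, Finset.card_univ, Fintype.card_fun, Fintype.card_fin, ZMod.card] at hcard
    exact lt_irrefl _ hcard
  obtain ⟨γ, hγ⟩ := hex
  refine ⟨γ, fun m hm => h2 ⟨m, hm⟩ γ fun h => hγ ?_⟩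
  exact mem_biUnion.2 ⟨⟨m, hm⟩, mem_univ _, h⟩

/-- **The trade-off.** -/
theorem main {N : ℕ} [NeZero N] (hN : 8 ≤ N) (k d : ℕ) (hk : 0 < k) :
    ∃ A : Finset (ZMod N), N ≤ (3 * k) ^ d * A.card ∧ ∀ (Γ : Finset (ZMod N)) (ε : ℝ), 0 < ε → ε ≤ 1 → Γ.card < d →
      (∀ x : ZMod N, (∀ γ ∈ Γ, nn (γ * x) ≤ ε) → ∃ a b : Fin k → ZMod N, (∀ i, a i ∈ A) ∧ (∀ i, b i ∈ A) ∧
        x = ∑ i, a i - ∑ i, b i) →
      (N : ℝ) ^ (d - Γ.card) < (32 / ε) ^ (Γ.card * d) := by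
  classical
  obtain ⟨γ, hγ⟩ := good (N := N) hN d
  obtain ⟨A, hA1, hA2⟩ := cell (3 * k) (by omega) γ
  refine ⟨A, hA1, fun Γ ε hε hε1 hΓ hsub => ?_⟩
  by_contra hcon
  push Not at hcon
  obtain ⟨q, hqdef⟩ : ∃ q : ℕ, q = ⌈1 / ε⌉₊ := ⟨_, rfl⟩
  have hq1 : 1 / ε ≤ q := by rw [hqdef]; exact Nat.le_ceil _
  have hq2 : (q : ℝ) < 1 / ε + 1 := by rw [hqdef]; exact Nat.ceil_lt_add_one (by positivity)
  have hε2 : 1 ≤ 1 / ε := by rw [le_div_iff₀ hε]; linarith
  have hq3 : (0 : ℝ) < q := by linarith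
  have hq0 : 0 < q := by exact_mod_cast hq3
  have hq4 : (16 * q : ℝ) ≤ 32 / ε := by
    have : 32 / ε = 16 * (1 / ε + 1 / ε) := by ring
    rw [this]
    linarith
  have hq5 : (16 * q) ^ (Γ.card * d) ≤ N ^ (d - Γ.card) := by
    have : ((16 * q : ℝ)) ^ (Γ.card * d) ≤ (N : ℝ) ^ (d - Γ.card) :=
      (pow_le_pow_left₀ (by positivity) hq4 _).trans hcon
    exact_mod_cast this
  have hq6 : 1 / (q : ℝ) ≤ ε := by
    rw [div_le_iff₀ hq3]
    rw [div_le_iff₀ hε] at hq1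
    linarith
  obtain ⟨i, x, h1, h2⟩ := hγ Γ.card hΓ q hq0 hq5 (fun j => (Γ.equivFin.symm j : ZMod N))
  obtain ⟨a, b, ha, hb, hab⟩ := hsub x (by
    intro g hg
    have h3 := h1 (Γ.equivFin ⟨g, hg⟩)
    simp only [Equiv.symm_apply_apply] at h3
    exact h3.trans hq6)
  have h3 : γ i * x = ∑ j, γ i * (a j - b j) := by
    rw [hab, ← Finset.sum_sub_distrib, Finset.mul_sum]
  have hk' : (0 : ℝ) < k := by exact_mod_cast hk
  have h4 : nn (γ i * x) < 1 / 3 := by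
    rw [h3]
    have : Nonempty (Fin k) := ⟨⟨0, hk⟩⟩
    calc nn (∑ j, γ i * (a j - b j)) ≤ ∑ j, nn (γ i * (a j - b j)) := nn_sum _ _
      _ < ∑ j : Fin k, 1 / ((3 * k : ℕ) : ℝ) :=
        Finset.sum_lt_sum_of_nonempty univ_nonempty fun j _ => hA2 _ (ha j) _ (hb j) i
      _ = 1 / 3 := by
        rw [Finset.sum_const, Finset.card_univ, Fintype.card_fin, nsmul_eq_mul]
        push_cast
        field_simp
  linarith

end Pool.Agent.V8H16.BL
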